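import Pool.Agent.Helper12.Sab.Assembly
import Pool.Agent.Helper12.Sab.Free

/-!
# The variety of degree `d` Sabinin algebras is a Schreier variety

The definitions (`SabAlg`, `splits`, `IsHom`, `IsSubalgebra`, `SabAlg.restrict`, `IsFreeOn`,
`IsSchreier`) are in `Pool.Agent.Helper12.Sab.Defs`.

Idea of the proof. A degree `d` Sabinin algebra structure on `V` is shown to be the same thing as a
*normalised frame*: a family of maps `θ : S^k V ⊗ V → V` (`1 ≤ k < d`) whose total symmetrisation
vanishes, the multioperator `⟨x₁, …, x_m; y, z⟩` being obtained by applying the formal vector
fields `D_{x₁} … D_{x_m}` of the frame to the torsion (structure) function of the frame. Since the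
family `θ` and the operations `Φ` are free of relations other than multilinearity and symmetry, the
variety is equivalent to the category of algebras over a functor `G` on vector spaces, and
subalgebras of free algebras of the latter kind are free.

Sanity check: `Pool.Agent.Helper12.Sab.Fr.exists_free` shows that there is a free degree `d` Sabinin
algebra on every set.
-/

set_option autoImplicit false

namespace Pool.Agent.Results.MP_08a7ad_al.Schreier

universe u

open Pool.Agent.Helper12.Sab

/-- For every field `F` of characteristic `0` and every `d ≥ 2`, the variety `𝒮_d` of degree `d`
Sabinin algebras over `F` is a Schreier variety. -/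
theorem result (F : Type u) [Field F] [CharZero F] (d : ℕ) (_hd : 2 ≤ d) :
    IsSchreier.{u} F d :=
  schreier d

end Pool.Agent.Results.MP_08a7ad_al.Schreier
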